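import Pool.Agent.H38.PWS.Stmts

/-!
# Row `AMB` of the board `pws`: the ambient set is closed
-/

set_option autoImplicit false

namespace Pool.PWS

open ArithmeticFunction Finset Pool.MKP

theorem AMB : AMBStmt := by
  intro m n hm hn e he e' he'
  unfold Amb at he ⊢
  rw [mem_biUnion] at he ⊢
  obtain ⟨i, hi, he⟩ := he
  rw [mem_image] at he
  obtain ⟨w, hw, rfl⟩ := he
  unfold out at he'
  rw [mem_image] at he'
  obtain ⟨z, hz, rfl⟩ := he'
  have hzp := Nat.prime_of_mem_primeFactors hz
  have hzd : z ∣ sigma 1 (w ^ (it i n).factorization w) := Nat.dvd_of_mem_primeFactors hz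
  have hit : it i n ≠ 0 := (it_pos hn i).ne'
  -- `w` divides `it i n`
  have hw' : w ∈ (it i n).primeFactors := by
    by_contra h
    have h0 : (it i n).factorization w = 0 := by
      rw [← Nat.support_factorization, Finsupp.mem_support_iff, not_not] at h
      exact h
    rw [h0, pow_zero] at hzd
    simp at hzd
    exact hzp.one_lt.ne' hzd
  have hdvd : z ∣ it (i + 1) n := by
    rw [it_succ, sigma_prod hit]
    exact hzd.trans (Finset.dvd_prod_of_mem _ hw')
  have hmem : z ∈ (it (i + 1) n).primeFactors :=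
    Nat.mem_primeFactors.2 ⟨hzp, hdvd, (it_pos hn _).ne'⟩
  have him : i < m := mem_range.1 hi
  show ∃ a ∈ range m, (nx m i, z) ∈ _
  by_cases h : i + 1 = m
  · refine ⟨0, mem_range.2 (by omega), ?_⟩
    rw [mem_image]
    refine ⟨z, ?_, ?_⟩
    · rw [mem_union]
      right
      rw [← h]
      exact hmem
    · unfold nx
      rw [if_pos h]
  · refine ⟨i + 1, mem_range.2 (by omega), ?_⟩
    rw [mem_image]
    refine ⟨z, ?_, ?_⟩
    · rw [mem_union]
      left
      exact hmem
    · unfold nx
      rw [if_neg h]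

end Pool.PWS
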